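import Pool.Agent.Hhelper14.ZPL.KClosed

/-!
# Rational equations: an irreducible variety over the algebraic numbers of codimension `c` is a
component of a locus defined by `c` equations with rational coefficients
-/

namespace Pool.Agent.Hhelper14.ZPL

open MvPolynomial Pool.Agent.Hhelper14.ZP

namespace CiRat

attribute [local instance] MvPolynomial.algebraMvPolynomial

variable {ι : Type}

theorem flat_mv : Module.Flat (MvPolynomial ι ℚ) (MvPolynomial ι ℂ) :=
  Module.Flat.isBaseChange ℚ (MvPolynomial ι ℚ) ℂ (MvPolynomial ι ℂ)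
    ((Algebra.isPushout_iff ℚ (MvPolynomial ι ℚ) ℂ (MvPolynomial ι ℂ)).mp inferInstance)

theorem isIntegral_Qb : Algebra.IsIntegral ℚ Qb := by
  have h := algebraicClosure.isAlgebraic ℚ ℂ
  have e : (IntermediateField.algebra' Qb : Algebra ℚ Qb) = DivisionRing.toRatAlgebra :=
    Subsingleton.elim _ _
  first
    | exact h.isIntegral
    | (rw [e] at h; exact h.isIntegral)
    | (rw [← e]; exact h.isIntegral)

theorem isIntegral_mv : Algebra.IsIntegral (MvPolynomial ι ℚ) (MvPolynomial ι Qb) := by
  have := isIntegral_Qb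
  infer_instance

/-- the height does not decrease under contraction to `ℚ[x]` -/
theorem height_under_le [Finite ι] (P : Ideal (MvPolynomial ι ℂ)) [P.IsPrime] :
    (P.under (MvPolynomial ι ℚ)).height ≤ P.height := by
  have := flat_mv (ι := ι)
  have hover : P.LiesOver (P.under (MvPolynomial ι ℚ)) := ⟨rfl⟩
  rw [Ideal.height_eq_height_add_of_liesOver_of_hasGoingDown (P.under (MvPolynomial ι ℚ)) P]
  exact le_self_add

/-- incomparability -/
theorem eq_of_under_le {I J : Ideal (MvPolynomial ι Qb)} [I.IsPrime] (h : I ≤ J)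
    (h' : J.comap (algebraMap (MvPolynomial ι ℚ) (MvPolynomial ι Qb)) ≤
      I.comap (algebraMap (MvPolynomial ι ℚ) (MvPolynomial ι Qb))) : I = J := by
  by_contra hne
  have := isIntegral_mv (ι := ι)
  have h1 := Ideal.IsIntegral.comap_lt_comap (R := MvPolynomial ι ℚ) (lt_of_le_of_ne h hne)
  exact absurd h' (not_le_of_gt h1)

theorem mem_under_iff {X : Set (ι → ℂ)} (p : MvPolynomial ι ℚ) :
    p ∈ (vanishingIdeal ℂ X : Ideal (MvPolynomial ι ℂ)).under (MvPolynomial ι ℚ) ↔
      ∀ x ∈ X, (aeval x p : ℂ) = 0 := by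
  rw [Ideal.under_def, Ideal.mem_comap, mem_vanishingIdeal_iff]
  refine forall₂_congr fun x _ => ?_
  rw [MvPolynomial.algebraMap_def, aeval_map_algebraMap]

theorem mem_comap_Qb_iff {X : Set (ι → ℂ)} (p : MvPolynomial ι ℚ) :
    p ∈ (vanishingIdeal Qb X : Ideal (MvPolynomial ι Qb)).comap
      (algebraMap (MvPolynomial ι ℚ) (MvPolynomial ι Qb)) ↔
      ∀ x ∈ X, (aeval x p : ℂ) = 0 := by
  rw [Ideal.mem_comap, mem_vanishingIdeal_iff]
  refine forall₂_congr fun x _ => ?_
  rw [MvPolynomial.algebraMap_def, aeval_map_algebraMap]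

end CiRat

open CiRat

attribute [local instance] MvPolynomial.algebraMvPolynomial in
theorem exists_ci_rat {ι : Type} [Fintype ι] {U : Set (ι → ℂ)} (hU : KClosed U)
    (hi : IsIrredClosed U) :
    ∃ (c : ℕ) (G : Fin c → MvPolynomial ι ℚ), dim U + c = Fintype.card ι ∧
      IsComponent U {x | ∀ k, (aeval x (G k) : ℂ) = 0} := by
  set P : Ideal (MvPolynomial ι ℂ) := vanishingIdeal ℂ U with hP
  have hPp : P.IsPrime := hi.1
  obtain ⟨d, hd, -⟩ := exists_dim hi
  set q : Ideal (MvPolynomial ι ℚ) := P.under (MvPolynomial ι ℚ) with hq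
  have hqp : q.IsPrime := inferInstance
  obtain ⟨s, hs, hcard⟩ := Ideal.exists_finset_card_eq_height_of_isNoetherianRing q
  let e := s.equivFin
  let G : Fin s.card → MvPolynomial ι ℚ := fun k => (e.symm k : MvPolynomial ι ℚ)
  have hG : ∀ p ∈ s, ∃ k, G k = p := fun p hp => ⟨e ⟨p, hp⟩, by simp [G]⟩
  set X : Set (ι → ℂ) := {x | ∀ k, (aeval x (G k) : ℂ) = 0} with hX
  have hX1 : X = zeroLocus ℂ (Ideal.span (Set.range fun k => map (algebraMap ℚ ℂ) (G k))) := by
    ext x
    rw [mem_zeroLocus_iff]
    constructor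
    · intro hx p hp
      have h1 : Ideal.span (Set.range fun k => map (algebraMap ℚ ℂ) (G k)) ≤
          vanishingIdeal ℂ {x} := by
        rw [Ideal.span_le]
        rintro _ ⟨k, rfl⟩
        rw [SetLike.mem_coe, mem_vanishingIdeal_singleton_iff, aeval_map_algebraMap]
        exact hx k
      have h2 := h1 hp
      rwa [mem_vanishingIdeal_singleton_iff] at h2
    · intro hx k
      have h1 := hx _ (Ideal.subset_span ⟨k, rfl⟩)
      rwa [aeval_map_algebraMap] at h1
  have hX2 : X = zeroLocus ℂ (Ideal.span (Set.range fun k =>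
      (map (algebraMap ℚ Qb) (G k) : MvPolynomial ι Qb))) := by
    ext x
    rw [mem_zeroLocus_iff]
    constructor
    · intro hx p hp
      have h1 : Ideal.span (Set.range fun k => (map (algebraMap ℚ Qb) (G k) : MvPolynomial ι Qb)) ≤
          vanishingIdeal Qb {x} := by
        rw [Ideal.span_le]
        rintro _ ⟨k, rfl⟩
        rw [SetLike.mem_coe, mem_vanishingIdeal_iff]
        intro y hy
        rw [Set.mem_singleton_iff.mp hy, aeval_map_algebraMap]
        exact hx k
      have h2 := h1 hp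
      rw [mem_vanishingIdeal_iff] at h2
      exact h2 x rfl
    · intro hx k
      have h1 := hx _ (Ideal.subset_span ⟨k, rfl⟩)
      rwa [aeval_map_algebraMap] at h1
  have hXk : KClosed X := by
    rw [hX2]
    exact kclosed_zeroLocus _
  have hUX : U ⊆ X := by
    intro x hx k
    have h1 : G k ∈ q := hs.1.2 (Ideal.subset_span (e.symm k).2)
    exact (mem_under_iff _).mp h1 x hx
  -- `U` is a component
  have hcomp : IsComponent U X := by
    obtain ⟨C, hC, hUC⟩ := exists_comp_ge hXk.closed hi hUX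
    have hCk := kclosed_component hXk hC
    have h1 : (vanishingIdeal Qb C : Ideal (MvPolynomial ι Qb)) ≤ vanishingIdeal Qb U :=
      vanishingIdeal_anti_mono hUC
    have h2 : (vanishingIdeal Qb C : Ideal (MvPolynomial ι Qb)).IsPrime := kprime_of_prime hC.1.1
    have h3 : (vanishingIdeal Qb C : Ideal (MvPolynomial ι Qb)) = vanishingIdeal Qb U := by
      refine eq_of_under_le h1 ?_
      have h4 : q ≤ (vanishingIdeal Qb C : Ideal (MvPolynomial ι Qb)).comap
          (algebraMap (MvPolynomial ι ℚ) (MvPolynomial ι Qb)) := by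
        refine hs.2 ⟨Ideal.IsPrime.comap _, ?_⟩ ?_
        · rw [Ideal.span_le]
          intro p hp
          obtain ⟨k, rfl⟩ := hG p hp
          exact (mem_comap_Qb_iff _).mpr fun x hx => hC.2.1 hx k
        · intro p hp
          exact (mem_under_iff _).mpr fun x hx => (mem_comap_Qb_iff _).mp hp x (hUC hx)
      refine le_trans ?_ h4
      intro p hp
      exact (mem_under_iff _).mpr ((mem_comap_Qb_iff _).mp hp)
    have h5 : C = U := by rw [← hCk, ← hU, h3]
    rwa [h5] at hC
  refine ⟨s.card, G, ?_, hcomp⟩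
  -- the dimension
  have hmin : P ∈ (Ideal.span (Set.range fun k => map (algebraMap ℚ ℂ) (G k))).minimalPrimes := by
    refine mem_minimalPrimes_of_isComponent ?_
    rwa [← hX1]
  have h1 := le_krull_minimal (D := Fintype.card ι) height_max_ge
    (fun k => map (algebraMap ℚ ℂ) (G k)) hmin
  have h2 : ringKrullDim (MvPolynomial ι ℂ ⧸ P) = dim U := rfl
  rw [h2, hd] at h1
  have h3 : Fintype.card ι - s.card ≤ d := by exact_mod_cast h1
  have h4 : (P.height : WithBot ℕ∞) + ringKrullDim (MvPolynomial ι ℂ ⧸ P) ≤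
      ringKrullDim (MvPolynomial ι ℂ) := height_add_krull_le P
  have h5 : (s.card : WithBot ℕ∞) ≤ (P.height : WithBot ℕ∞) := by
    have := height_under_le P
    rw [← hq, ← hcard] at this
    exact_mod_cast this
  rw [h2, hd, MvPolynomial.ringKrullDim_of_isNoetherianRing] at h4
  have h6 : s.card + d ≤ Fintype.card ι := by
    have : ((s.card + d : ℕ) : WithBot ℕ∞) ≤ (Fintype.card ι : ℕ) := by
      have h7 : ((s.card : ℕ) : WithBot ℕ∞) + ((d : ℕ) : WithBot ℕ∞) ≤
          (P.height : WithBot ℕ∞) + ((d : ℕ) : WithBot ℕ∞) := by gcongr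
      have h8 := h7.trans h4
      simpa using h8
    exact_mod_cast this
  rw [hd]
  have h7 : d + s.card = Fintype.card ι := by omega
  exact_mod_cast h7

end Pool.Agent.Hhelper14.ZPL
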