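import Pool.Agent.Hhelper14.ZP.Gen

/-!
# For a finite set of complex numbers, almost all primes have a good valuation ring
-/

namespace Pool.Agent.Hhelper14.ZPL

open MvPolynomial Pool.Agent.Hhelper14.ZP

namespace ValFinite

/-- a valuation ring dominating the localization of a subring at a prime ideal -/
theorem exists_val_of_prime {K : Type*} [Field K] {A : Subring K} (P : Ideal A) [P.IsPrime] :
    ∃ V : ValuationSubring K, (∀ a : A, (a : K) ∈ V) ∧ (∀ a : A, a ∈ P → V.valuation (a : K) < 1) ∧
      (∀ a : A, a ∉ P → V.valuation (a : K) = 1) := by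
  obtain ⟨V, hV⟩ := (LocalSubring.ofPrime A P).exists_le_valuationSubring
  obtain ⟨hle, hloc⟩ := LocalSubring.le_def.mp hV
  have hmem : ∀ a : A, (a : K) ∈ V := fun a => hle (LocalSubring.le_ofPrime A P a.2)
  have hval : ∀ a : A, V.valuation (a : K) ≤ 1 := fun a => (V.valuation_le_one_iff _).mpr (hmem a)
  refine ⟨V, hmem, fun a ha => ?_, fun a ha => ?_⟩
  · rw [← ValuationSubring.mem_nonunits_iff,
      ValuationSubring.mem_nonunits_iff_exists_mem_maximalIdeal]
    refine ⟨hmem a, ?_⟩
    rw [IsLocalRing.mem_maximalIdeal, _root_.mem_nonunits_iff]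
    intro hu
    have h1 := hloc.map_nonunit (algebraMap A (LocalSubring.ofPrime A P).toSubring a) hu
    exact (IsLocalization.AtPrime.isUnit_to_map_iff _ P a).mp h1 ha
  · have h1 : IsUnit (algebraMap A (LocalSubring.ofPrime A P).toSubring a) :=
      (IsLocalization.AtPrime.isUnit_to_map_iff _ P a).mpr ha
    obtain ⟨b, hb⟩ := isUnit_iff_exists_inv.mp h1
    have h2 : (a : K) * (b : K) = 1 := congrArg Subtype.val hb
    have h3 : V.valuation (b : K) ≤ 1 := (V.valuation_le_one_iff _).mpr (hle b.2)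
    have h4 := congrArg V.valuation h2
    rw [map_mul, map_one] at h4
    apply le_antisymm (hval a)
    calc (1 : _) = V.valuation (a : K) * V.valuation (b : K) := h4.symm
      _ ≤ V.valuation (a : K) * 1 := by gcongr
      _ = _ := mul_one _

/-- a nonzero integral polynomial is nonzero modulo almost all primes -/
theorem finite_map_eq_zero {B : Type*} {g : MvPolynomial B ℤ} (hg : g ≠ 0) :
    {p : ℕ | p.Prime ∧ map (Int.castRingHom (ZMod p)) g = 0}.Finite := by
  obtain ⟨m, hm⟩ := MvPolynomial.ne_zero_iff.mp hg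
  refine (Set.finite_le_nat (coeff m g).natAbs).subset ?_
  rintro p ⟨-, hp0⟩
  have h1 := congrArg (coeff m) hp0
  rw [coeff_map, coeff_zero] at h1
  have h2 : (p : ℤ) ∣ coeff m g := by
    have : ((coeff m g : ℤ) : ZMod p) = 0 := h1
    rwa [ZMod.intCast_zmod_eq_zero_iff_dvd] at this
  have h3 : p ∣ (coeff m g).natAbs := Int.natCast_dvd.mp h2
  exact Nat.le_of_dvd (Int.natAbs_pos.mpr hm) h3

end ValFinite

open ValFinite

/-- For every finite set of complex numbers, for almost all primes `p` there is a valuation ring of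
`ℂ` with `p` in its maximal ideal which contains the set. -/
theorem exists_val_finite (S : Finset ℂ) :
    {p : ℕ | p.Prime ∧ ∀ V : ValuationSubring ℂ,
      ¬ (V.valuation (p : ℂ) < 1 ∧ ∀ z ∈ S, z ∈ V)}.Finite := by
  classical
  obtain ⟨B, hB⟩ := exists_isTranscendenceBasis ℤ ℂ
  let φ : MvPolynomial B ℤ →ₐ[ℤ] ℂ := aeval (fun i : B => (i : ℂ))
  have hφ : Function.Injective φ := hB.1
  -- the algebraic relations
  have hrel : ∀ u : ℂ, ∃ q : Polynomial (MvPolynomial B ℤ), q ≠ 0 ∧
      q.eval₂ (φ : MvPolynomial B ℤ →+* ℂ) u = 0 := by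
    intro u
    have halg := hB.isAlgebraic
    obtain ⟨q, hq0, hq⟩ := halg.isAlgebraic u
    let e := hB.1.aevalEquiv.toRingEquiv
    refine ⟨q.map e.symm.toRingHom, ?_, ?_⟩
    · intro h0
      apply hq0
      have := congrArg (Polynomial.map e.toRingHom) h0
      rw [Polynomial.map_map, Polynomial.map_zero] at this
      have h2 : e.toRingHom.comp e.symm.toRingHom = RingHom.id _ := by
        ext y
        simp
      rwa [h2, Polynomial.map_id] at this
    · rw [Polynomial.eval₂_map]
      have h2 : (φ : MvPolynomial B ℤ →+* ℂ).comp e.symm.toRingHom = algebraMap _ ℂ := by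
        ext y
        have h3 := hB.1.algebraMap_aevalEquiv (e.symm y)
        have h4 : hB.1.aevalEquiv (e.symm y) = y := e.apply_symm_apply y
        rw [h4] at h3
        exact h3.symm
      rw [h2]
      exact hq
  choose q hq0 hq using hrel
  set g : MvPolynomial B ℤ := ∏ u ∈ S, (q u).leadingCoeff with hg
  have hg0 : g ≠ 0 := Finset.prod_ne_zero_iff.mpr fun u _ =>
    Polynomial.leadingCoeff_ne_zero.mpr (hq0 u)
  refine (finite_map_eq_zero hg0).subset ?_
  rintro p ⟨hp, hV⟩
  refine ⟨hp, ?_⟩
  by_contra hgp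
  have : Fact p.Prime := ⟨hp⟩
  -- the valuation ring
  let ψ : MvPolynomial B ℤ →+* ℂ := (φ : MvPolynomial B ℤ →+* ℂ)
  have hψ : Function.Injective ψ := hφ
  let A : Subring ℂ := ψ.range
  let e : MvPolynomial B ℤ ≃+* A := RingEquiv.ofBijective ψ.rangeRestrict
    ⟨fun x y h => hψ (congrArg Subtype.val h), ψ.rangeRestrict_surjective⟩
  let χ : A →+* MvPolynomial B (ZMod p) :=
    (map (Int.castRingHom (ZMod p))).comp (e.symm : A →+* MvPolynomial B ℤ)
  have hχ : (RingHom.ker χ).IsPrime := RingHom.ker_isPrime χ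
  obtain ⟨V, hVA, hV1, hV2⟩ := exists_val_of_prime (RingHom.ker χ)
  have hψV : ∀ f, ψ f ∈ V := fun f => hVA (e f)
  have hunit : ∀ f, map (Int.castRingHom (ZMod p)) f ≠ 0 → V.valuation (ψ f) = 1 := by
    intro f hf
    refine hV2 (e f) fun h => hf ?_
    have h1 : map (Int.castRingHom (ZMod p)) (e.symm (e f)) = 0 := h
    rwa [RingEquiv.symm_apply_apply] at h1
  have hpV : V.valuation (p : ℂ) < 1 := by
    have h1 := hV1 (e (p : MvPolynomial B ℤ)) (by
      change map (Int.castRingHom (ZMod p)) (e.symm (e (p : MvPolynomial B ℤ))) = 0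
      rw [RingEquiv.symm_apply_apply, map_natCast]
      simp)
    have h2 : ((e (p : MvPolynomial B ℤ) : A) : ℂ) = p := by
      rw [map_natCast]
      rfl
    rwa [h2] at h1
  refine hV V ⟨hpV, fun u hu => ?_⟩
  have hlc : map (Int.castRingHom (ZMod p)) (q u).leadingCoeff ≠ 0 := by
    intro h0
    apply hgp
    rw [hg, map_prod]
    exact Finset.prod_eq_zero hu h0
  refine mem_of_root V (p := (q u).map ψ) (fun i => ?_) ?_ ?_
  · rw [Polynomial.coeff_map]
    exact hψV _
  · rw [Polynomial.leadingCoeff_map_of_injective hψ]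
    exact hunit _ hlc
  · rw [Polynomial.eval_map]
    exact hq u

end Pool.Agent.Hhelper14.ZPL
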