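import Pool.Agent.Hhelper14.ZPL.KClosed

/-!
# Special subvarieties are closed over the algebraic numbers
-/

namespace Pool.Agent.Hhelper14.ZPL

open UpperHalfPlane MvPolynomial Pool.Agent.Hhelper14.ZP MatrixGroups
open scoped Manifold

namespace SpK

theorem mem_Qb_of_mem_OO {x : ℂ} (hx : x ∈ OO) : x ∈ Qb := by
  have h1 : IsIntegral ℤ x := hx
  rw [mem_algebraicClosure_iff']
  exact h1.tower_top

/-- algebraic integers are algebraic numbers -/
noncomputable def rho : OO →+* Qb where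
  toFun x := ⟨x, mem_Qb_of_mem_OO x.2⟩
  map_one' := rfl
  map_mul' _ _ := rfl
  map_zero' := rfl
  map_add' _ _ := rfl

theorem coe_rho (x : OO) : algebraMap Qb ℂ (rho x) = x := rfl

/-- **Points in the closure of a block.** -/
theorem block_point_K {I : Type} [Fintype I] (N : I → ℕ) (hN : ∀ i, 0 < N i) (A : ∀ i, DD (N i))
    (w : ℂ) (y : I → ℂ)
    (H : ∀ h : MvPolynomial (Option I) Qb,
      (∀ τ : ℍ, (aeval (fun o : Option I => o.elim (jInv τ) fun i => jA (hN i) (A i) τ) h : ℂ) = 0) →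
      (aeval (fun o : Option I => o.elim w y) h : ℂ) = 0) :
    ∃ τ : ℍ, jInv τ = w ∧ ∀ i, y i = jA (hN i) (A i) τ := by
  classical
  obtain ⟨τ', hτ'⟩ := j_surj w
  let N₀ : ℕ := ∏ i, N i
  have hN₀ : 0 < N₀ := Finset.prod_pos fun i _ => hN i
  -- the conjugate tuples
  let om : SL(2, ℤ) → I → ℍ → ℂ := fun γ i τ => jA (hN i) (A i) (γ • τ)
  have hom : ∀ γ i, om γ i = jQ (hN i) (Quotient.mk'' (rmul (A i) γ)) := by
    intro γ i
    rw [jQ_mk]
    funext τ
    exact (jA_rmul (hN i) γ (A i) τ).symm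
  have hfin : (Set.range om).Finite := by
    have h1 : (Set.range fun q : (∀ i, QQ (N i)) => fun i => jQ (hN i) (q i)).Finite := by
      have : ∀ i, Finite (QQ (N i)) := fun i => finite_QQ (hN i)
      exact Set.finite_range _
    refine h1.subset ?_
    rintro _ ⟨γ, rfl⟩
    exact ⟨fun i => Quotient.mk'' (rmul (A i) γ), funext fun i => (hom γ i).symm⟩
  have hmem : ∀ γ i, om γ i ∈ RR N₀ := by
    intro γ i
    rw [hom]
    have h1 : N₀ = N i * ∏ k ∈ Finset.univ.erase i, N k :=
      (Finset.mul_prod_erase _ _ (Finset.mem_univ i)).symm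
    rw [h1]
    exact RR_mono (hN i) (Finset.prod_pos fun k _ => hN k) (jQ_mem (hN i) _)
  let Ω : Finset (I → ℍ → ℂ) := hfin.toFinset
  have hΩ : ∀ ω, ω ∈ Ω ↔ ∃ γ, om γ = ω := fun ω => by
    simp [Ω]
  let e : I ≃ Fin (Fintype.card I) := Fintype.equivFin I
  obtain ⟨t, ht⟩ := exists_weight (fun i => (e i : ℕ)) (fun a b h => e.injective (Fin.ext h))
    ((fun ω : I → ℍ → ℂ => fun i => y i - ω i τ') '' (Ω : Set _)) ((Finset.finite_toSet Ω).image _)
  have hΩmem : ∀ ω ∈ Ω, ∀ i, ω i ∈ RR N₀ := by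
    intro ω hω i
    obtain ⟨γ, rfl⟩ := (hΩ ω).mp hω
    exact hmem γ i
  let S : (I → ℍ → ℂ) → ℍ → ℂ := fun ω => ∑ i, (fun _ => ((t : ℂ) ^ (e i : ℕ))) * ω i
  have hSτ : ∀ ω τ, S ω τ = ∑ i, (t : ℂ) ^ (e i : ℕ) * ω i τ := by
    intro ω τ
    simp [S]
  have hSmem : ∀ ω ∈ Ω, S ω ∈ RR N₀ := by
    intro ω hω
    refine Subring.sum_mem _ fun i _ => Subring.mul_mem _ ?_ (hΩmem ω hω i)
    refine ⟨mdifferentiable_const, 0, _, HasQ.const ?_⟩
    exact OO.pow_mem (natCast_mem_OO t) _
  let P : Polynomial (RR N₀) := ∏ ω : Ω, (Polynomial.X - Polynomial.C ⟨S ω, hSmem ω ω.2⟩)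
  have hPmap : ∀ τ, P.map (evalAt N₀ τ) =
      ∏ ω ∈ Ω, (Polynomial.X - Polynomial.C (S ω τ)) := by
    intro τ
    simp only [P, Polynomial.map_prod]
    rw [← Finset.prod_coe_sort Ω (fun ω => (Polynomial.X - Polynomial.C (S ω τ)))]
    refine Finset.prod_congr rfl fun ω _ => ?_
    rw [Polynomial.map_sub, Polynomial.map_X, Polynomial.map_C]
    rfl
  -- invariance
  have hPinv : ∀ (δ : SL(2, ℤ)) (τ : ℍ), P.map (evalAt N₀ (δ • τ)) = P.map (evalAt N₀ τ) := by
    intro δ τ
    rw [hPmap, hPmap]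
    let φ : SL(2, ℤ) → (I → ℍ → ℂ) → (I → ℍ → ℂ) := fun δ ω i τ => ω i (δ • τ)
    have hφ : ∀ δ, ∀ ω ∈ Ω, φ δ ω ∈ Ω := by
      intro δ ω hω
      obtain ⟨γ, rfl⟩ := (hΩ ω).mp hω
      refine (hΩ _).mpr ⟨γ * δ, ?_⟩
      funext i τ
      simp only [om, φ, mul_smul]
    refine Finset.prod_bij' (fun ω _ => φ δ ω) (fun ω _ => φ δ⁻¹ ω) (hφ δ) (hφ δ⁻¹) ?_ ?_ ?_
    · intro ω _
      funext i τ
      simp only [φ, smul_inv_smul]
    · intro ω _
      funext i τ
      simp only [φ, inv_smul_smul]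
    · intro ω _
      rw [hSτ, hSτ]
  have hcoef : ∀ k, ∃ Q : Polynomial OO, ∀ τ : ℍ, evalAt N₀ τ (P.coeff k) =
      Q.eval₂ OO.subtype (jInv τ) := by
    intro k
    refine exists_poly_of_mem hN₀ (P.coeff k).2 fun γ τ => ?_
    have h := congrArg (fun p => p.coeff k) (hPinv γ τ)
    simp only [Polynomial.coeff_map] at h
    exact h
  choose Q hQ using hcoef
  -- the polynomial relation
  let L : MvPolynomial (Option I) Qb := ∑ i, MvPolynomial.C ((t : Qb) ^ (e i : ℕ)) * X (some i)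
  let h : MvPolynomial (Option I) Qb := ∑ k ∈ Finset.range (P.natDegree + 1),
    (Q k).eval₂ (MvPolynomial.C.comp rho) (X none) * L ^ k
  have hev : ∀ (τ : ℍ) (v : I → ℂ), (aeval (fun o : Option I => o.elim (jInv τ) v) h : ℂ) =
      ∏ ω ∈ Ω, ∑ i, (t : ℂ) ^ (e i : ℕ) * (v i - ω i τ) := by
    intro τ v
    have h1 : (aeval (fun o : Option I => o.elim (jInv τ) v) L : ℂ) =
        ∑ i, (t : ℂ) ^ (e i : ℕ) * v i := by
      simp [L]
    have h2 : (P.map (evalAt N₀ τ)).eval (∑ i, (t : ℂ) ^ (e i : ℕ) * v i) =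
        ∏ ω ∈ Ω, ∑ i, (t : ℂ) ^ (e i : ℕ) * (v i - ω i τ) := by
      rw [hPmap, Polynomial.eval_prod]
      refine Finset.prod_congr rfl fun ω _ => ?_
      rw [Polynomial.eval_sub, Polynomial.eval_X, Polynomial.eval_C, hSτ, ← Finset.sum_sub_distrib]
      exact Finset.sum_congr rfl fun i _ => by ring
    rw [← h2, Polynomial.eval_map, Polynomial.eval₂_eq_sum_range]
    simp only [h, map_sum, map_mul, map_pow, h1]
    refine Finset.sum_congr rfl fun k _ => ?_
    rw [hQ k τ]
    congr 1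
    have h5 := Polynomial.hom_eval₂ (Q k) (MvPolynomial.C.comp rho)
      ((aeval (fun o : Option I => o.elim (jInv τ) v) : MvPolynomial (Option I) Qb →ₐ[Qb] ℂ) :
        MvPolynomial (Option I) Qb →+* ℂ) (X none)
    have h6 : ((aeval (fun o : Option I => o.elim (jInv τ) v) :
        MvPolynomial (Option I) Qb →ₐ[Qb] ℂ) : MvPolynomial (Option I) Qb →+* ℂ).comp
        (MvPolynomial.C.comp rho) = OO.subtype := by
      ext a
      simp only [RingHom.comp_apply, RingHom.coe_coe, aeval_C, coe_rho]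
      rfl
    rw [h6] at h5
    have h7 : ((aeval (fun o : Option I => o.elim (jInv τ) v) :
        MvPolynomial (Option I) Qb →ₐ[Qb] ℂ) : MvPolynomial (Option I) Qb →+* ℂ) (X none) =
        jInv τ := by
      rw [RingHom.coe_coe, aeval_X]
      rfl
    rw [h7] at h5
    exact h5
  have hvan := H h fun τ => by
    rw [hev τ fun i => jA (hN i) (A i) τ]
    refine Finset.prod_eq_zero ((hΩ _).mpr ⟨1, rfl⟩) ?_
    refine Finset.sum_eq_zero fun i _ => ?_
    simp [om]
  rw [← hτ', hev τ' y, Finset.prod_eq_zero_iff] at hvan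
  obtain ⟨ω, hω, h0⟩ := hvan
  have h3 := ht _ ⟨ω, hω, rfl⟩ h0
  obtain ⟨γ, rfl⟩ := (hΩ ω).mp hω
  refine ⟨γ • τ', by rw [jInv_smul, hτ'], fun i => ?_⟩
  have h4 := congrFun h3 i
  simp only [Pi.zero_apply] at h4
  exact sub_eq_zero.mp h4


end SpK

open SpK

variable {ι : Type}

/-- **Special sets are closed over the algebraic numbers.** -/
theorem spSet_kclosed [Finite ι] {κ : Type} {block : ι → Option κ} {g : ι → GL (Fin 2) ℚ}
    {s : ι → ℍ} (hb : ∀ b : κ, ∃ i, block i = some b) (hg : ∀ i, 0 < (g i).det.val)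
    (hs : ∀ i, block i = none → IsCM (s i)) :
    KClosed (SpSet block g s) := by
  classical
  have := Fintype.ofFinite ι
  refine kclosed_iff.mpr fun y hy => ?_
  choose rep hrep using hb
  have hint : ∀ i b, ∃ (N : ℕ) (hN : 0 < N) (A : DD N), ∀ τ : ℍ,
      gact (g i * (g (rep b))⁻¹) τ = act hN A τ := by
    intro i b
    refine exists_integral ?_
    rw [map_mul, Units.val_mul]
    exact mul_pos (hg _) (det_inv_pos (hg _))
  choose N hN A hA using hint
  have hblock : ∀ b, ∃ τ : ℍ, ∀ i, block i = some b → y i = jInv (gact (g i) τ) := by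
    intro b
    obtain ⟨τ, hτ1, hτ2⟩ := block_point_K (I := {i // block i = some b}) (fun i => N i b)
      (fun i => hN i b) (fun i => A i b) (y (rep b)) (fun i => y i) (fun h hh => by
        let σ : Option {i // block i = some b} → ι := fun o => o.elim (rep b) (fun i => i)
        have h1 := hy (rename σ h) (by
          rw [mem_vanishingIdeal_iff]
          rintro x ⟨τ, hτ⟩
          rw [aeval_rename]
          have h2 := hh (gact (g (rep b)) (τ b))
          have h3 : (x ∘ σ) = fun o : Option {i // block i = some b} =>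
              o.elim (jInv (gact (g (rep b)) (τ b)))
                fun i => jA (hN i b) (A i b) (gact (g (rep b)) (τ b)) := by
            funext o
            rcases o with _ | ⟨i, hi⟩
            · change x (rep b) = _
              rw [hτ, hrep b]
              rfl
            · change x i = jInv (act (hN i b) (A i b) _)
              rw [hτ, hi, ← hA, ← gact_mul, inv_mul_cancel_right]
              rfl
          rw [h3]
          exact h2)
        rw [aeval_rename] at h1
        have h3 : (y ∘ σ) = fun o : Option {i // block i = some b} =>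
            o.elim (y (rep b)) fun i => y i := by
          funext o
          rcases o with _ | i <;> rfl
        rw [h3] at h1
        exact h1)
    refine ⟨gact (g (rep b))⁻¹ τ, fun i hi => ?_⟩
    rw [hτ2 ⟨i, hi⟩, jA, ← hA, gact_mul]
  choose τ hτ using hblock
  refine ⟨τ, fun i => ?_⟩
  rcases hi : block i with _ | b
  · have h1 := hy (X i - C (rho ⟨jInv (s i), jInv_mem_of_isCM (hs i hi)⟩)) (by
      rw [mem_vanishingIdeal_iff]
      rintro x ⟨τ, hτ⟩
      have := hτ i
      rw [hi] at this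
      rw [map_sub, aeval_X, aeval_C, coe_rho, this]
      simp)
    rw [map_sub, aeval_X, aeval_C, coe_rho] at h1
    exact sub_eq_zero.mp h1
  · exact hτ b i hi

theorem special_kclosed [Finite ι] {Z : Set (ι → ℂ)} (hZ : IsSpecial Z) : KClosed Z := by
  obtain ⟨r, block, g, s, hb, hg, hs, rfl⟩ := isSpecial_iff.mp hZ
  exact spSet_kclosed hb hg hs

end Pool.Agent.Hhelper14.ZPL
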